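import Pool.Agent.Y990.OA.Stm
import Pool.Agent.Y689.CB.Box

set_option autoImplicit false

open MeasureTheory Set

/-!
Project OA of helper990: the parts AL3, AL4, MON and XI.
-/

namespace Pool.Agent.Y350.OA

open Pool.Agent.W783.PC (pm DepOn Inc)
open Pool.Agent.W424.PC (cfgOf)
open Pool.Agent.Y990.PL (Expl)
open Pool.Agent.Y990.CB
open Pool.Agent.Y990.OA
open H974 (Ex Ok ind Pr)

noncomputable section

/-! ### Neighbours -/

open scoped Classical in
/-- the neighbours of a vertex -/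
def NB {d : ℕ} (x : Z d) : Finset (Z d) :=
  (Finset.univ : Finset (Fin d × Bool)).image
    (fun q => Function.update x q.1 (x q.1 + if q.2 = true then 1 else -1))

lemma card_NB {d : ℕ} (x : Z d) : (NB x).card ≤ 2 * d := by
  classical
  unfold NB
  refine Finset.card_image_le.trans ?_
  rw [Finset.card_univ, Fintype.card_prod, Fintype.card_fin, Fintype.card_bool, mul_comm]

lemma mem_NB {d : ℕ} {x y : Z d} (h : Nb x y) : y ∈ NB x := by
  classical
  have hne := Nb_ne h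
  obtain ⟨i, hi⟩ := Function.ne_iff.1 hne
  unfold Nb at h
  rw [← Finset.add_sum_erase _ _ (Finset.mem_univ i)] at h
  have h1 : 0 ≤ ∑ j ∈ Finset.univ.erase i, |x j - y j| :=
    Finset.sum_nonneg fun j _ => abs_nonneg _
  have h2 : 1 ≤ |x i - y i| := Int.one_le_abs (sub_ne_zero.2 hi)
  have h3 : ∑ j ∈ Finset.univ.erase i, |x j - y j| = 0 := by omega
  have h4 : |x i - y i| = 1 := by omega
  have h5 : ∀ j, j ≠ i → y j = x j := by
    intro j hj
    have h6 := (Finset.sum_eq_zero_iff_of_nonneg fun j _ => abs_nonneg _).1 h3 j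
      (Finset.mem_erase.2 ⟨hj, Finset.mem_univ j⟩)
    have h7 := abs_eq_zero.1 h6
    omega
  unfold NB
  rw [Finset.mem_image]
  rcases (abs_eq (by norm_num : (0 : ℤ) ≤ 1)).1 h4 with h8 | h8
  · refine ⟨(i, false), Finset.mem_univ _, ?_⟩
    funext j
    by_cases hj : j = i
    · subst hj
      rw [Function.update_self]
      simp only [Bool.false_eq_true, if_false]
      omega
    · rw [Function.update_of_ne hj]
      exact (h5 j hj).symm
  · refine ⟨(i, true), Finset.mem_univ _, ?_⟩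
    funext j
    by_cases hj : j = i
    · subst hj
      rw [Function.update_self]
      simp only [if_true]
      omega
    · rw [Function.update_of_ne hj]
      exact (h5 j hj).symm

open scoped Classical in
/-- the coordinates at a vertex -/
def NC {d : ℕ} (M : Mod d) (x : Z d) : Finset M.ι := (NB x).biUnion fun y => M.nd x y

lemma card_NC {d : ℕ} (M : Mod d) (x : Z d) : (NC M x).card ≤ 4 * d := by
  classical
  unfold NC
  refine Finset.card_biUnion_le.trans ?_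
  calc ∑ y ∈ NB x, (M.nd x y).card ≤ ∑ _y ∈ NB x, 2 := Finset.sum_le_sum fun y _ => M.card x y
    _ = (NB x).card * 2 := by rw [Finset.sum_const, smul_eq_mul]
    _ ≤ 4 * d := by
      have := card_NB x
      omega

lemma mem_NC {d : ℕ} {M : Mod d} {x y : Z d} {c : M.ι} (h : Nb x y) (hc : c ∈ M.nd x y) :
    c ∈ NC M x := by
  classical
  unfold NC
  exact Finset.mem_biUnion.2 ⟨y, mem_NB h, hc⟩

lemma card_NCs {d : ℕ} (M : Mod d) (S : Finset (Z d)) (T : Finset M.ι)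
    (h : ∀ c ∈ T, ∃ x ∈ S, c ∈ NC M x) : (T.card : ℝ) ≤ 4 * d * (S.card : ℝ) := by
  classical
  have h1 : T ⊆ S.biUnion (NC M) := fun c hc => Finset.mem_biUnion.2 (h c hc)
  have h2 : T.card ≤ S.card * (4 * d) := by
    refine (Finset.card_le_card h1).trans (Finset.card_biUnion_le.trans ?_)
    calc ∑ x ∈ S, (NC M x).card ≤ ∑ _x ∈ S, 4 * d := Finset.sum_le_sum fun x _ => card_NC M x
      _ = S.card * (4 * d) := by rw [Finset.sum_const, smul_eq_mul]
  have h3 : (T.card : ℝ) ≤ (S.card : ℝ) * (4 * d) := by exact_mod_cast h2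
  linarith

lemma Nb_Bo {d : ℕ} {x y : Z d} {m : ℕ} (h : Nb x y) (hy : y ∈ Bo (0 : Z d) m) :
    x ∈ Bo (0 : Z d) (m + 1) := by
  intro i
  have h1 := Nb_coord h i
  have h2 := hy i
  simp only [Pi.zero_apply, sub_zero] at h2 ⊢
  rw [abs_le] at h1 h2 ⊢
  push_cast
  omega

lemma mem_Tf {d : ℕ} {M : Mod d} {m : ℕ} {c : M.ι} : c ∈ Tf M m ↔ c ∈ In M (Bo (0 : Z d) m) := by
  rw [← coe_Tf, Finset.mem_coe]

lemma mem_Ff {d : ℕ} {L : ℕ} {x : Z d} : x ∈ Ff (0 : Z d) L ↔ x ∈ Fr (0 : Z d) L := by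
  classical
  unfold Ff
  rw [Finset.mem_filter]
  exact ⟨fun h => h.2, fun h => ⟨mem_Bf.2 h.1, h⟩⟩

theorem al3 : S_al3 := by
  classical
  intro d M m X
  have hfin : (X ∩ Bo (0 : Z d) (m + 1)).Finite := (Bo_finite 0 (m + 1)).subset inter_subset_right
  have h1 := card_NCs M hfin.toFinset ((Tf M m).filter fun e => tc M e X) (by
    intro c hc
    rw [Finset.mem_filter, mem_Tf] at hc
    obtain ⟨⟨a, ha, b, hb, hab, hcab⟩, x, hx, y, hxy, hcxy⟩ := hc
    refine ⟨x, hfin.mem_toFinset.2 ⟨hx, ?_⟩, mem_NC hxy hcxy⟩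
    rcases M.loc a b x y c hcab hcxy with h | h | h | h
    · exact Bo_mono 0 (Nat.le_succ m) (h ▸ ha)
    · exact Bo_mono 0 (Nat.le_succ m) (h ▸ hb)
    · exact Nb_Bo hxy (h ▸ ha)
    · exact Nb_Bo hxy (h ▸ hb))
  rw [← Set.ncard_eq_toFinset_card _ hfin] at h1
  unfold Vt
  convert h1

theorem al4 : S_al4 := by
  classical
  intro d M L k r ω z _ hz _
  constructor
  · unfold Kc
    rw [Finset.mem_filter]
    constructor
    · rintro ⟨-, X, hX, Y, hY, hXY, ⟨x, hx, hxz⟩, ⟨y, hy, hyz⟩⟩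
      unfold Al at hX hY
      obtain ⟨u, hu, rfl⟩ := Finset.mem_image.1 hX
      obtain ⟨v, hv, rfl⟩ := Finset.mem_image.1 hY
      rw [mem_Ff] at hu hv
      refine ⟨x, hxz, y, hyz, ⟨u, hu, SimpleGraph.Reachable.symm hx⟩,
        ⟨v, hv, SimpleGraph.Reachable.symm hy⟩, fun hr => hXY ?_⟩
      have h1 : cl M ω (Bo 0 L) x = cl M ω (Bo 0 L) u := cl_eq hx
      have h2 : cl M ω (Bo 0 L) y = cl M ω (Bo 0 L) v := cl_eq hy
      have h3 : cl M ω (Bo 0 L) y = cl M ω (Bo 0 L) x := cl_eq hr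
      show cl M ω (Bo 0 L) u = cl M ω (Bo 0 L) v
      rw [← h1, ← h2, h3]
    · rintro ⟨x, hxz, y, hyz, ⟨u, hu, hxu⟩, ⟨v, hv, hyv⟩, hn⟩
      refine ⟨hz, cl M ω (Bo 0 L) u, Finset.mem_image.2 ⟨u, mem_Ff.2 hu, rfl⟩,
        cl M ω (Bo 0 L) v, Finset.mem_image.2 ⟨v, mem_Ff.2 hv, rfl⟩, ?_,
        ⟨x, SimpleGraph.Reachable.symm hxu, hxz⟩, ⟨y, SimpleGraph.Reachable.symm hyv, hyz⟩⟩
      intro h
      apply hn
      have h1 : y ∈ cl M ω (Bo 0 L) u := by
        rw [h]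
        exact SimpleGraph.Reachable.symm hyv
      exact SimpleGraph.Reachable.trans hxu h1
  · unfold Hc
    rw [Finset.mem_filter]
    constructor
    · rintro ⟨-, h⟩ ⟨x, hx, y, hy, hxy⟩
      exact h (cl M ω (Bo 0 L) y) (Finset.mem_image.2 ⟨y, mem_Ff.2 hy, rfl⟩)
        ⟨x, SimpleGraph.Reachable.symm hxy, hx⟩
    · intro h
      refine ⟨hz, ?_⟩
      intro X hX
      obtain ⟨u, hu, rfl⟩ := Finset.mem_image.1 hX
      rintro ⟨x, hx, hxz⟩
      exact h ⟨x, hxz, u, mem_Ff.1 hu, SimpleGraph.Reachable.symm hx⟩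

/-! ### Monotonicity -/

lemma exit_frame {d : ℕ} {z y : Z d} {L : ℕ} (hz : nm z ≤ L) (hy : y ∈ Fr z (2 * L)) :
    y ∉ Bo (0 : Z d) L ∨ y ∈ Fr (0 : Z d) L := by
  obtain ⟨-, i, hi⟩ := hy
  by_cases hb : y ∈ Bo (0 : Z d) L
  · right
    refine ⟨hb, i, ?_⟩
    have h1 := hb i
    have h2 := (abs_le_nm z i).trans (by exact_mod_cast hz : (nm z : ℤ) ≤ L)
    simp only [Pi.zero_apply, sub_zero] at h1 ⊢
    push_cast at hi
    have h3 := abs_sub (y i) (z i)
    omega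
  · exact Or.inl hb

theorem mon : S_mon := by
  intro d M p k L z _ hzk
  have hz : nm z ≤ L := by omega
  have hzb : z ∈ Bo (0 : Z d) (nm z) := by
    have := mem_Bo_nm 0 z
    rwa [zero_add] at this
  have hkL : Bo z k ⊆ Bo (0 : Z d) L := Bo_sub hzb (by omega)
  have hLL : Bo (0 : Z d) L ⊆ Bo z (2 * L) := Bo_sub (mem_Bo_comm.1 hzb) (by omega)
  have hAm : ∀ (ω : M.ι → Bool) (x : Z d), x ∈ Bo z k → Am M ω z (2 * L) x → Am M ω 0 L x := by
    rintro ω x hx ⟨y, hy, hxy⟩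
    exact exit_Am (hkL hx) (exit_frame hz hy) hxy
  constructor
  · unfold hol
    have hmeas : MeasurableSet {ω : M.ι → Bool | ω ∉ Lk M (Bo 0 (2 * L)) (Bo 0 k) (Fr 0 (2 * L))} :=
      (Lk_meas M _ _ _).compl
    rw [← mu_inv_real M p (sf z) hmeas]
    refine measureReal_mono ?_ (measure_ne_top _ _)
    intro ω hω
    show ¬ ((fun c => ω (M.tr (sf z) c)) ∈ Lk M (Bo 0 (2 * L)) (Bo 0 k) (Fr 0 (2 * L)))
    rintro ⟨x, hx, y, hy, hxy⟩
    have h1 : Am M (fun c => ω (M.tr (sf z) c)) 0 (2 * L) x := ⟨y, hy, hxy⟩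
    rw [Am_sym, zero_add] at h1
    have h2 : x + z ∈ Bo z k := by
      have := (mem_Bo_add (z := 0) (x := x) (w := z) (L := k)).2 hx
      rwa [zero_add] at this
    obtain ⟨y', hy', hxy'⟩ := hAm ω (x + z) h2 h1
    exact hω ⟨x + z, h2, y', hy', hxy'⟩
  · have h1 := Ta_shift M p 0 z k (2 * L)
    rw [zero_add] at h1
    rw [← h1]
    refine measureReal_mono ?_ (measure_ne_top _ _)
    rintro ω ⟨x, hx, y, hy, h2, h3, h4⟩
    exact ⟨x, hx, y, hy, hAm ω x hx h2, hAm ω y hy h3, fun h => h4 (reach_mono hLL h)⟩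

/-! ### The influence -/

lemma Fn_anti {d : ℕ} (M : Mod d) (L : ℕ) {A A' : Finset M.ι} (h : A ⊆ A') :
    Fn M L A' ≤ Fn M L A := by
  unfold Fn
  refine Pool.Agent.Y689.CB.Nf_anti le_rfl ?_ ?_ h
  · intro u _ A x hx
    rw [Finset.mem_coe, mem_Ff]
    exact hx.2
  · intro u _ A A' hAA'
    exact inter_subset_inter_left _ (cl_mono (Pool.Agent.Y689.CB.cfg_mono hAA') subset_rfl u)

theorem xi : S_xi := by
  classical
  intro d M p L m m' hm
  have hp0 : (0 : ℝ) ≤ p := p.2.1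
  have hp1 : (p : ℝ) ≤ 1 := p.2.2
  have hterm : ∀ c : M.ι, 0 ≤ (p : ℝ) * (1 - p) *
      Ex (fun _ : M.ι => (p : ℝ)) (Tf M L) (fun A => Fn M L (A.erase c) - Fn M L (insert c A)) := by
    intro c
    refine mul_nonneg (mul_nonneg hp0 (by linarith)) (H974.Ex_nonneg (fun _ => ⟨hp0, hp1⟩) ?_)
    intro A _
    have := Fn_anti M L ((Finset.erase_subset c A).trans (Finset.subset_insert c A))
    linarith
  have hsub : Tf M m ⊆ Tf M m' := by
    intro c hc
    rw [mem_Tf] at hc ⊢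
    exact In_mono M (Bo_mono 0 hm) hc
  refine ⟨?_, ?_, ?_, ?_⟩
  · unfold Xi
    refine Finset.sum_nonneg fun c _ => ?_
    convert hterm c
  · unfold Xi
    refine Finset.sum_le_sum_of_subset_of_nonneg hsub fun c _ _ => ?_
    convert hterm c
  · have h1 := card_NCs M (Bf (0 : Z d) m) (Tf M m) (by
      intro c hc
      rw [mem_Tf] at hc
      obtain ⟨a, ha, b, hb, hab, hcab⟩ := hc
      exact ⟨a, mem_Bf.2 ha, mem_NC hab hcab⟩)
    rw [card_Bf] at h1
    exact_mod_cast h1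
  · have h1 : (Ff (0 : Z d) L).card ≤ (Bf (0 : Z d) L).card := by
      refine Finset.card_le_card fun x hx => ?_
      rw [mem_Ff] at hx
      exact mem_Bf.2 hx.1
    rw [card_Bf] at h1
    exact_mod_cast h1

end

end Pool.Agent.Y350.OA
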